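import Pool.Agent.H85.BSMain

/-!
# Heavy directed cycles in weighted strong digraphs

In a finite strong digraph with at least two vertices and nonnegative arc weights there is a
directed cycle which is at least as heavy as all arcs into one of its vertices, or at least as
heavy as all arcs out of one of its vertices.  This contains the question of Bollobás and Scott.
-/

set_option autoImplicit false

open Finset

namespace Pool.Agent.Results.MP_395f85_co.HeavyCycle

universe u

/-- The digraph with vertex set `V` and arcs `A` is strong: any vertex can be reached from any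
other one along arcs. -/
def Strong {V : Type u} (A : V → V → Prop) : Prop := ∀ u v, Relation.ReflTransGen A u v

open Classical in
/-- The weighted indegree of `v`: the sum of the weights of the arcs into `v`. -/
noncomputable def inWeight {V : Type u} [Fintype V] (A : V → V → Prop) (w : V → V → ℝ) (v : V) :
    ℝ := ∑ u, if A u v then w u v else 0

open Classical in
/-- The weighted outdegree of `v`: the sum of the weights of the arcs out of `v`. -/
noncomputable def outWeight {V : Type u} [Fintype V] (A : V → V → Prop) (w : V → V → ℝ) (v : V) :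
    ℝ := ∑ u, if A v u then w v u else 0

/-- The directed cycles: `n ≥ 2` distinct vertices `c 0, …, c (n - 1)` such that there is an arc
from `c i` to `c (i + 1)` for every `i`, and an arc from `c (n - 1)` to `c 0`. -/
def IsDirectedCycle {V : Type u} (A : V → V → Prop) {n : ℕ} (c : Fin n → V) : Prop :=
  2 ≤ n ∧ Function.Injective c ∧ ∀ i, A (c i) (c (finRotate n i))

/-- The weight of a directed cycle: the sum of the weights of its arcs. -/
def cycleWeight {V : Type u} (w : V → V → ℝ) {n : ℕ} (c : Fin n → V) : ℝ :=
  ∑ i, w (c i) (c (finRotate n i))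

/-! ### Positive weights -/

open Pool.Agent.H85.HC in
theorem closed_reach {V : Type u} {w : V → V → ℝ} {K : Finset V} {a : V} {x : ℝ}
    (h0 : ∀ v, w v v = 0) (h : Reach w K a a x) :
    ∃ (k : ℕ) (f : Fin (k + 2) → V), Function.Injective f ∧ f 0 = a ∧
      (∀ i, 0 < w (f i) (f (finRotate (k + 2) i))) ∧
      x ≤ ∑ i, w (f i) (f (finRotate (k + 2) i)) := by
  obtain ⟨l, h1, h2, h3, h4⟩ := h
  cases l with
  | nil =>
    exfalso
    simp only [List.nil_append, ch] at h3
    rw [h0] at h3
    exact lt_irrefl _ h3.1
  | cons b l =>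
    refine ⟨l.length, fun i => (a :: b :: l).get i, ?_, rfl, ?_, ?_⟩
    · exact List.nodup_iff_injective_get.mp h1
    · obtain ⟨g1, g2⟩ := ch_get w (b :: l) a a h3
      intro i
      refine Fin.lastCases ?_ ?_ i
      · have : finRotate (l.length + 2) (Fin.last (l.length + 1)) = 0 := finRotate_last
        rw [this]
        exact g2
      · intro j
        have : finRotate (l.length + 2) j.castSucc = j.succ := by
          rw [finRotate_apply]
          simp
        rw [this]
        exact g1 j
    · refine h4.trans ?_
      rw [pw_eq_sum w (b :: l) a a]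
      rw [Fin.sum_univ_castSucc]
      apply le_of_eq
      congr 1
      · apply Finset.sum_congr rfl
        intro j _
        have : finRotate (l.length + 2) j.castSucc = j.succ := by
          rw [finRotate_apply]
          simp
        rw [this]
      · have : finRotate (l.length + 2) (Fin.last (l.length + 1)) = 0 := finRotate_last
        rw [this]
        rfl

theorem rotate_rev {k : ℕ} (i : Fin (k + 2)) :
    finRotate (k + 2) (Fin.rev (finRotate (k + 2) i)) = Fin.rev i := by
  apply Fin.ext
  simp only [finRotate_apply, Fin.val_rev, Fin.val_add, Fin.val_one]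
  have hi := i.2
  by_cases hik : i.1 + 1 < k + 2
  · rw [Nat.mod_eq_of_lt hik, Nat.mod_eq_of_lt (by omega)]
    omega
  · have h4 : i.1 + 1 = k + 2 := by omega
    rw [h4, Nat.mod_self]
    have h5 : k + 2 - (0 + 1) + 1 = k + 2 := by omega
    rw [h5, Nat.mod_self]
    omega

/-- The local form for positive weights. -/
theorem local_pos {V : Type u} [Fintype V] [Nontrivial V] (A : V → V → Prop)
    (hA : ∀ v, ¬ A v v) (hS : Strong A) (w : V → V → ℝ) (hw : ∀ u v, A u v → 0 < w u v) :
    ∃ (n : ℕ) (c : Fin n → V), IsDirectedCycle A c ∧ ∃ i,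
      inWeight A w (c i) ≤ cycleWeight w c ∨ outWeight A w (c i) ≤ cycleWeight w c := by
  classical
  have hstep : ∀ v : V, (∃ u, A u v) ∧ ∃ u, A v u := by
    intro v
    obtain ⟨u, hu⟩ := exists_ne v
    constructor
    · rcases Relation.ReflTransGen.cases_tail (hS u v) with h | ⟨z, _, h⟩
      · exact absurd h.symm hu
      · exact ⟨z, h⟩
    · rcases Relation.ReflTransGen.cases_head (hS v u) with h | ⟨z, h, _⟩
      · exact absurd h.symm hu
      · exact ⟨z, h⟩
  set W : V → V → ℝ := fun u v => if A u v then w u v else 0 with hW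
  have hpos : ∀ u v, 0 < W u v ↔ A u v := by
    intro u v
    rw [hW]
    dsimp only
    split_ifs with h
    · exact ⟨fun _ => h, fun _ => hw u v h⟩
    · exact ⟨fun h' => absurd h' (lt_irrefl _), fun h' => absurd h' h⟩
  have h0 : ∀ u v, 0 ≤ W u v := by
    intro u v
    rw [hW]
    dsimp only
    split_ifs with h
    · exact (hw u v h).le
    · exact le_rfl
  have hl : ∀ v, W v v = 0 := fun v => if_neg (hA v)
  have hst : ∀ u v, Relation.ReflTransGen (fun a b => 0 < W a b) u v := by
    intro u v
    have hle : ∀ a b, A a b → 0 < W a b := fun a b h => (hpos a b).2 h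
    induction hS u v with
    | refl => exact Relation.ReflTransGen.refl
    | tail _ h ih => exact ih.tail (hle _ _ h)
  have hWw : ∀ {n : ℕ} (c : Fin n → V), (∀ i, A (c i) (c (finRotate n i))) →
      ∑ i, W (c i) (c (finRotate n i)) = cycleWeight w c := by
    intro n c hc
    exact Finset.sum_congr rfl fun i _ => if_pos (hc i)
  rcases Pool.Agent.H85.BS.main h0 hl hst (fun v => (hstep v).1.imp fun u h => (hpos u v).2 h)
    (fun v => (hstep v).2.imp fun u h => (hpos v u).2 h) with ⟨s, hs⟩ | ⟨s, hs⟩
  · obtain ⟨k, f, h1, hf0, h2, h3⟩ := closed_reach hl hs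
    have h2' : ∀ i, A (f i) (f (finRotate (k + 2) i)) := fun i => (hpos _ _).1 (h2 i)
    refine ⟨k + 2, f, ⟨by omega, h1, h2'⟩, 0, Or.inl ?_⟩
    rw [hf0, ← hWw f h2']
    exact h3
  · obtain ⟨k, f, h1, hf0, h2, h3⟩ := closed_reach (w := fun u v => W v u) (fun v => hl v) hs
    have h2' : ∀ i, A (f (Fin.rev i)) (f (Fin.rev (finRotate (k + 2) i))) := by
      intro i
      have := h2 (Fin.rev (finRotate (k + 2) i))
      rw [rotate_rev i] at this
      exact (hpos _ _).1 this
    refine ⟨k + 2, fun i => f (Fin.rev i), ⟨by omega, h1.comp Fin.rev_injective, h2'⟩,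
      Fin.rev 0, Or.inr ?_⟩
    rw [← hWw (fun i => f (Fin.rev i)) h2']
    show outWeight A w (f (Fin.rev (Fin.rev 0))) ≤ _
    rw [Fin.rev_rev, hf0]
    refine h3.trans (le_of_eq ?_)
    have h4 : ∑ i, W (f (finRotate (k + 2) i)) (f i) =
        ∑ i, W (f (finRotate (k + 2) (Fin.rev (finRotate (k + 2) i))))
          (f (Fin.rev (finRotate (k + 2) i))) := by
      symm
      exact Equiv.sum_comp ((finRotate (k + 2)).trans Fin.revPerm)
        (fun i => W (f (finRotate (k + 2) i)) (f i))
    rw [h4]
    apply Finset.sum_congr rfl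
    intro i _
    rw [rotate_rev i]

/-! ### Nonnegative weights -/

/-- The local form for nonnegative weights. -/
theorem local_nonneg {V : Type u} [Fintype V] [Nontrivial V] (A : V → V → Prop)
    (hA : ∀ v, ¬ A v v) (hS : Strong A) (w : V → V → ℝ) (hw : ∀ u v, A u v → 0 ≤ w u v) :
    ∃ (n : ℕ) (c : Fin n → V), IsDirectedCycle A c ∧ ∃ i,
      inWeight A w (c i) ≤ cycleWeight w c ∨ outWeight A w (c i) ≤ cycleWeight w c := by
  classical
  by_contra hcon
  push Not at hcon
  set N : ℕ := Fintype.card V with hN
  let x : (Σ n : Fin (N + 1), (Fin n → V) × Fin n) → ℝ := fun t =>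
    if IsDirectedCycle A t.2.1 then cycleWeight w t.2.1 else 0
  let y : (Σ n : Fin (N + 1), (Fin n → V) × Fin n) → ℝ := fun t =>
    if IsDirectedCycle A t.2.1 then
      min (inWeight A w (t.2.1 t.2.2)) (outWeight A w (t.2.1 t.2.2)) else 1
  have hxy : ∀ t, x t < y t := by
    intro t
    show (if IsDirectedCycle A t.2.1 then cycleWeight w t.2.1 else 0) <
      (if IsDirectedCycle A t.2.1 then
        min (inWeight A w (t.2.1 t.2.2)) (outWeight A w (t.2.1 t.2.2)) else 1)
    split_ifs with h
    · exact lt_min (hcon _ _ h t.2.2).1 (hcon _ _ h t.2.2).2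
    · exact one_pos
  obtain ⟨ε, hε, hgap⟩ := Pi.exists_forall_pos_add_lt hxy
  have hN0 : (0 : ℝ) < N + 1 := by positivity
  have hη : 0 < ε / (N + 1) := div_pos hε hN0
  obtain ⟨n, c, hc, i, hi⟩ := local_pos A hA hS (fun u v => w u v + ε / (N + 1))
    (fun u v h => add_pos_of_nonneg_of_pos (hw u v h) hη)
  have hn : n ≤ N := by
    have := Fintype.card_le_of_injective c hc.2.1
    rwa [Fintype.card_fin] at this
  have h1 : cycleWeight (fun u v => w u v + ε / (N + 1)) c ≤ cycleWeight w c + ε := by
    unfold cycleWeight
    rw [Finset.sum_add_distrib, Finset.sum_const, Finset.card_univ, Fintype.card_fin,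
      nsmul_eq_mul]
    have h2 : (n : ℝ) * (ε / (N + 1)) ≤ ε := by
      rw [mul_div_assoc', div_le_iff₀ hN0]
      have h3 : (n : ℝ) ≤ N := by exact_mod_cast hn
      nlinarith
    linarith
  have h2 : inWeight A w (c i) ≤ inWeight A (fun u v => w u v + ε / (N + 1)) (c i) := by
    unfold inWeight
    refine Finset.sum_le_sum fun u _ => ?_
    split_ifs
    · linarith
    · exact le_rfl
  have h3 : outWeight A w (c i) ≤ outWeight A (fun u v => w u v + ε / (N + 1)) (c i) := by
    unfold outWeight
    refine Finset.sum_le_sum fun u _ => ?_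
    split_ifs
    · linarith
    · exact le_rfl
  have h4 := hgap ⟨⟨n, by omega⟩, c, i⟩
  have hx : x ⟨⟨n, by omega⟩, c, i⟩ = cycleWeight w c := if_pos hc
  have hy : y ⟨⟨n, by omega⟩, c, i⟩ = min (inWeight A w (c i)) (outWeight A w (c i)) :=
    if_pos hc
  rw [hx, hy] at h4
  have h5 := lt_min_iff.1 h4
  rcases hi with hi | hi
  · linarith
  · linarith

/-- **Local form.** Let `A` be the arcs of a finite strong digraph without loops with at least two
vertices, and let `w` be nonnegative on the arcs.  Then there are a directed cycle and a vertex of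
it such that the weight of the cycle is at least the weighted indegree or at least the weighted
outdegree of this vertex.

**The question of Bollobás and Scott.** If, moreover, all arc weights are positive and all weighted
indegrees and outdegrees are at least one (there may be only one vertex now), then some directed
cycle has weight at least one. -/
theorem result :
    (∀ (V : Type u) [Fintype V] [Nontrivial V] (A : V → V → Prop) (w : V → V → ℝ),
      (∀ v, ¬ A v v) → Strong A → (∀ u v, A u v → 0 ≤ w u v) →
      ∃ (n : ℕ) (c : Fin n → V), IsDirectedCycle A c ∧ ∃ i,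
        inWeight A w (c i) ≤ cycleWeight w c ∨ outWeight A w (c i) ≤ cycleWeight w c) ∧
    (∀ (V : Type u) [Fintype V] [Nonempty V] (A : V → V → Prop) (w : V → V → ℝ),
      (∀ v, ¬ A v v) → Strong A → (∀ u v, A u v → 0 < w u v) →
      (∀ v, 1 ≤ inWeight A w v) → (∀ v, 1 ≤ outWeight A w v) →
      ∃ (n : ℕ) (c : Fin n → V), IsDirectedCycle A c ∧ 1 ≤ cycleWeight w c) := by
  refine ⟨fun V _ _ A w hA hS hw => local_nonneg A hA hS w hw, ?_⟩
  intro V _ _ A w hA hS hw hin hout
  rcases subsingleton_or_nontrivial V with hV | hV
  · exfalso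
    obtain ⟨v⟩ := ‹Nonempty V›
    have h1 := hin v
    have h2 : inWeight A w v = 0 := by
      unfold inWeight
      refine Finset.sum_eq_zero fun u _ => ?_
      rw [Subsingleton.elim u v]
      exact if_neg (hA v)
    linarith
  · obtain ⟨n, c, hc, i, hi⟩ := local_nonneg A hA hS w fun u v h => (hw u v h).le
    refine ⟨n, c, hc, ?_⟩
    rcases hi with hi | hi
    · exact (hin _).trans hi
    · exact (hout _).trans hi

end Pool.Agent.Results.MP_395f85_co.HeavyCycle
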