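import Pool.Agent.H85.HCCount

set_option autoImplicit false

namespace Pool.Agent.Results.MP_395f85_co.LogCycle

open Finset Pool.Agent.H85.HC

/-- Every finite nonempty digraph with nonnegative arc weights (arcs are the pairs of positive
weight, no loops) in which every vertex has in-weight at least 1 contains a directed cycle whose
weight is at least 2 divided by the binary logarithm of the number of vertices. -/
theorem result (V : Type) [Fintype V] [Nonempty V] (w : V → V → ℝ)
    (hw : ∀ u v, 0 ≤ w u v) (h0 : ∀ v, w v v = 0) (hin : ∀ v, 1 ≤ ∑ u, w u v) :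
    ∃ (k : ℕ) (f : Fin (k + 2) → V), Function.Injective f ∧
      (∀ i, 0 < w (f i) (f (finRotate (k + 2) i))) ∧
      2 ≤ (∑ i, w (f i) (f (finRotate (k + 2) i))) * Real.logb 2 (Fintype.card V) := by
  classical
  -- a minimal nonempty set all of whose inner in-weights are at least one
  let F : Finset (Finset V) :=
    univ.filter (fun K : Finset V => K.Nonempty ∧ ∀ y ∈ K, 1 ≤ W w K y)
  have hF : F.Nonempty := ⟨univ, by
    simp only [F, Finset.mem_filter, Finset.mem_univ, true_and]
    exact ⟨univ_nonempty, fun y _ => hin y⟩⟩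
  obtain ⟨U, hUF, hUmin⟩ := Finset.exists_min_image F Finset.card hF
  simp only [F, Finset.mem_filter, Finset.mem_univ, true_and] at hUF hUmin
  obtain ⟨hUne, hU⟩ := hUF
  let V' := {x // x ∈ U}
  have : Nonempty V' := ⟨⟨hUne.choose, hUne.choose_spec⟩⟩
  let w' : V' → V' → ℝ := fun a b => w a b
  have hsum : ∀ v : V', ∑ u : V', w' u v = W w U v := by
    intro v
    exact Finset.sum_coe_sort U (fun u => w u v)
  have H : ∀ K : Finset V', K.Nonempty → K ≠ univ → ∃ v, v ∉ K ∧ 0 < W w' K v := by
    intro K hK hKu
    let K1 : Finset V := K.map (Function.Embedding.subtype _)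
    have hK1U : K1 ⊆ U := by
      intro x hx
      obtain ⟨a, _, rfl⟩ := Finset.mem_map.mp hx
      exact a.2
    have hWK : ∀ v : V', W w' K v = W w K1 v := by
      intro v
      change ∑ b ∈ K, w (b : V) v = ∑ b ∈ K.map (Function.Embedding.subtype _), w b v
      rw [Finset.sum_map]
      rfl
    obtain ⟨z, hz⟩ : ∃ z : V', z ∉ K := by
      by_contra hcon
      push Not at hcon
      exact hKu (Finset.eq_univ_of_forall hcon)
    have hne : (U \ K1).Nonempty := ⟨z, by
      rw [Finset.mem_sdiff]
      refine ⟨z.2, ?_⟩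
      intro hzz
      obtain ⟨a, ha, hae⟩ := Finset.mem_map.mp hzz
      exact hz (by
        have : a = z := Subtype.ext hae
        exact this ▸ ha)⟩
    have hlt : (U \ K1).card < U.card := by
      apply Finset.card_lt_card
      refine ⟨Finset.sdiff_subset, ?_⟩
      intro hsub
      obtain ⟨a, ha⟩ := hK
      have h1 : (a : V) ∈ K1 := Finset.mem_map.mpr ⟨a, ha, rfl⟩
      exact (Finset.mem_sdiff.mp (hsub a.2)).2 h1
    by_contra hcon
    push Not at hcon
    have hall : ∀ y ∈ U \ K1, 1 ≤ W w (U \ K1) y := by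
      intro y hy
      rw [Finset.mem_sdiff] at hy
      have h1 := hU y hy.1
      have h2 : W w U y = W w (U \ K1) y + W w K1 y := by
        unfold W
        rw [Finset.sum_sdiff hK1U]
      have hyK : (⟨y, hy.1⟩ : V') ∉ K := fun h =>
        hy.2 (Finset.mem_map.mpr ⟨⟨y, hy.1⟩, h, rfl⟩)
      have h3 := hcon ⟨y, hy.1⟩ hyK
      rw [hWK] at h3
      simp only at h3
      linarith
    have := hUmin (U \ K1) ⟨hne, hall⟩
    omega
  obtain ⟨k, f, hf, hp, hs⟩ := strong_version (w := w') (fun a b => hw a b) (fun a => h0 a) H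
    (fun v => by rw [hsum v]; exact hU v v.2)
  refine ⟨k, fun i => (f i : V), fun i j hij => hf (Subtype.ext hij), hp, ?_⟩
  have hcardle : Fintype.card V' ≤ Fintype.card V :=
    Fintype.card_le_of_injective (fun a : V' => (a : V)) Subtype.val_injective
  have hpos : (0 : ℝ) < Fintype.card V' := by exact_mod_cast Fintype.card_pos
  have hlog : Real.logb 2 (Fintype.card V') ≤ Real.logb 2 (Fintype.card V) :=
    Real.logb_le_logb_of_le (by norm_num) hpos (by exact_mod_cast hcardle)
  have hnn : 0 ≤ ∑ i, w (f i) (f (finRotate (k + 2) i)) :=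
    Finset.sum_nonneg fun i _ => hw _ _
  exact hs.trans (mul_le_mul_of_nonneg_left hlog hnn)

end Pool.Agent.Results.MP_395f85_co.LogCycle
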